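import Pool.Agent.Lib.MP_6cd19d_an.HP.Flat

/-!
# Ratios of Riesz capacities: comparison with the ball of one dimension more, and flat sets

For `n ≥ 2`, `0 ≤ p < q ≤ n - 1` and compact `K ⊆ R^n`, `cap_q(K)/cap_p(K)` is at most its value at the closed unit ball of
`R^(n+1)`.  For compact `K ⊆ R^(n+1)` contained in a hyperplane and `0 ≤ p < q < n + 1` the closed unit ball of `R^(n+1)`
has the larger ratio.
-/

set_option autoImplicit false

namespace Pool.Agent.Results.MP_6cd19d_an.FlatSets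

open Pool.Agent.Lib.MP_6cd19d_an

theorem result :
    ∀ cap : (n : ℕ) → ℝ → Set (EuclideanSpace ℝ (Fin n)) → ℝ,
      (∀ (n : ℕ) (s : ℝ) (K : Set (EuclideanSpace ℝ (Fin n))),
        cap n s K =
          if 0 < s then
            ((⨅ (μ : MeasureTheory.Measure (EuclideanSpace ℝ (Fin n)))
                (_ : μ Set.univ = 1 ∧ μ Kᶜ = 0),
                ∫⁻ x, ∫⁻ y, (edist x y) ^ (-s) ∂μ ∂μ) ^ (-1 / s)).toReal
          else if s = 0 then
            (if (⨅ (μ : MeasureTheory.Measure (EuclideanSpace ℝ (Fin n)))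
                  (_ : μ Set.univ = 1 ∧ μ Kᶜ = 0),
                  ∫⁻ x, ∫⁻ y, (if x = y then (⊤ : ENNReal) else
                    ENNReal.ofReal (Real.log ((Metric.diam K + 1) / dist x y))) ∂μ ∂μ) = ⊤
              then 0
              else (Metric.diam K + 1) * Real.exp (-((⨅ (μ : MeasureTheory.Measure
                  (EuclideanSpace ℝ (Fin n))) (_ : μ Set.univ = 1 ∧ μ Kᶜ = 0),
                  ∫⁻ x, ∫⁻ y, (if x = y then (⊤ : ENNReal) else
                    ENNReal.ofReal (Real.log ((Metric.diam K + 1) / dist x y))) ∂μ ∂μ).toReal)))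
          else
            ((⨆ (μ : MeasureTheory.Measure (EuclideanSpace ℝ (Fin n)))
                (_ : μ Set.univ = 1 ∧ μ Kᶜ = 0),
                ∫⁻ x, ∫⁻ y, (edist x y) ^ (-s) ∂μ ∂μ) ^ (-1 / s)).toReal) →
      (∀ n : ℕ, 2 ≤ n → ∀ p q : ℝ, 0 ≤ p → p < q → q ≤ (n : ℝ) - 1 →
        ∀ K : Set (EuclideanSpace ℝ (Fin n)), IsCompact K → 0 < cap n p K →
          cap n q K / cap n p K ≤
            cap (n + 1) q (Metric.closedBall (0 : EuclideanSpace ℝ (Fin (n + 1))) 1) /
              cap (n + 1) p (Metric.closedBall (0 : EuclideanSpace ℝ (Fin (n + 1))) 1)) ∧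
      (∀ N : ℕ, 3 ≤ N → ∀ p q : ℝ, 0 ≤ p → p < q → q < (N : ℝ) →
        ∀ K : Set (EuclideanSpace ℝ (Fin N)), IsCompact K →
          (∃ a : EuclideanSpace ℝ (Fin N), a ≠ 0 ∧ ∃ c : ℝ, ∀ x ∈ K, inner ℝ a x = c) →
          0 < cap N p K →
            cap N q K / cap N p K ≤
              cap N q (Metric.closedBall (0 : EuclideanSpace ℝ (Fin N)) 1) /
                cap N p (Metric.closedBall (0 : EuclideanSpace ℝ (Fin N)) 1)) := by
  intro cap hcap
  have hc : ∀ n s K, cap n s K = ND.capf s K := by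
    intro n s K
    rw [hcap]
    rfl
  refine ⟨?_, ?_⟩
  · intro n hn p q hp hpq hq K hK hpos
    simp only [hc] at hpos ⊢
    exact HP.ratio_up hn hp hpq hq hK hpos
  · intro N hN p q hp hpq hq K hK hflat hpos
    obtain ⟨a, ha, c, h⟩ := hflat
    obtain ⟨n, rfl⟩ : ∃ n, N = n + 1 := ⟨N - 1, by omega⟩
    simp only [hc] at hpos ⊢
    refine HP.ratio_flat (by omega) hp hpq ?_ hK ha h hpos
    push_cast at hq
    exact hq

end Pool.Agent.Results.MP_6cd19d_an.FlatSets
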