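import Pool.Agent.Lib.MP_6cd19d_an.SH.S17
import Pool.Agent.Lib.MP_6cd19d_an.Fin.High

/-!
# Ratios of Riesz capacities in high dimension

For every `M` there is `N0` such that in every dimension `n ≥ N0`, for all `0 ≤ p < q ≤ M`, the closed unit ball maximises
`cap_q / cap_p` among the compact sets of positive `p`-capacity.
-/

set_option autoImplicit false

namespace Pool.Agent.Results.MP_6cd19d_an.HighDimension

open Pool.Agent.Lib.MP_6cd19d_an

theorem result :
    ∀ M : ℝ, ∃ N0 : ℕ, ∀ n : ℕ, N0 ≤ n → ∀ p q : ℝ, 0 ≤ p → p < q → q ≤ M →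
      ∀ cap : ℝ → Set (EuclideanSpace ℝ (Fin n)) → ℝ,
        (∀ (s : ℝ) (K : Set (EuclideanSpace ℝ (Fin n))),
          cap s K =
            if 0 < s then
              ((⨅ (μ : MeasureTheory.Measure (EuclideanSpace ℝ (Fin n)))
                  (_ : μ Set.univ = 1 ∧ μ Kᶜ = 0),
                  ∫⁻ x, ∫⁻ y, (edist x y) ^ (-s) ∂μ ∂μ) ^ (-1 / s)).toReal
            else if s = 0 then
              (if (⨅ (μ : MeasureTheory.Measure (EuclideanSpace ℝ (Fin n)))
                    (_ : μ Set.univ = 1 ∧ μ Kᶜ = 0),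
                    ∫⁻ x, ∫⁻ y, (if x = y then (⊤ : ENNReal) else
                      ENNReal.ofReal (Real.log ((Metric.diam K + 1) / dist x y))) ∂μ ∂μ) = ⊤
                then 0
                else (Metric.diam K + 1) * Real.exp (-((⨅ (μ : MeasureTheory.Measure
                    (EuclideanSpace ℝ (Fin n))) (_ : μ Set.univ = 1 ∧ μ Kᶜ = 0),
                    ∫⁻ x, ∫⁻ y, (if x = y then (⊤ : ENNReal) else
                      ENNReal.ofReal (Real.log ((Metric.diam K + 1) / dist x y))) ∂μ ∂μ).toReal)))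
            else
              ((⨆ (μ : MeasureTheory.Measure (EuclideanSpace ℝ (Fin n)))
                  (_ : μ Set.univ = 1 ∧ μ Kᶜ = 0),
                  ∫⁻ x, ∫⁻ y, (edist x y) ^ (-s) ∂μ ∂μ) ^ (-1 / s)).toReal) →
        ∀ K : Set (EuclideanSpace ℝ (Fin n)), IsCompact K → 0 < cap p K →
          cap q K / cap p K ≤
            cap q (Metric.closedBall (0 : EuclideanSpace ℝ (Fin n)) 1) /
              cap p (Metric.closedBall (0 : EuclideanSpace ℝ (Fin n)) 1) := by
  intro M
  obtain ⟨n1, h1⟩ := SH.sharp_cap (max M 1) (le_max_right _ _)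
  obtain ⟨n2, h2⟩ := exists_nat_gt (max M 1)
  refine ⟨n1 + n2 + 3, ?_⟩
  intro N hN p q hp hpq hq cap hcap K hK hpos
  have hc : ∀ s K, cap s K = ND.capf s K := by
    intro s K
    rw [hcap]
    rfl
  obtain ⟨n, rfl⟩ : ∃ n, N = n + 1 := ⟨N - 1, by omega⟩
  simp only [hc] at hpos ⊢
  have hqM : q ≤ max M 1 := hq.trans (le_max_left _ _)
  have hn2 : (n2 : ℝ) ≤ ((n + 1 : ℕ) : ℝ) := by
    exact_mod_cast (by omega : n2 ≤ n + 1)
  have hlt : p < ((n + 1 : ℕ) : ℝ) := by linarith
  have hB := Fin.ball_pos (n := n + 1) (by omega) hlt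
  rw [div_le_div_iff₀ hpos hB, mul_comm (ND.capf q (Metric.closedBall _ _))]
  exact h1 n (by omega) p q hp hpq hqM K hK

end Pool.Agent.Results.MP_6cd19d_an.HighDimension
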