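import Pool.Agent.Lib.MP_6cd19d_an.Fin.High
import Pool.Agent.Lib.MP_6cd19d_an.Fin.One

/-!
# Ratios of Riesz capacities, `n - 2 ≤ q < n`

In every dimension `n` the closed unit ball maximises `cap_q / cap_p` and `Vol^(1/n) / cap_p` for
all real `p < q` with `n - 2 ≤ q < n` (so the volume statement holds for all real `p < n`).
-/

set_option autoImplicit false

namespace Pool.Agent.Results.MP_6cd19d_an.HighExponents

open Pool.Agent.Lib.MP_6cd19d_an

theorem result :
    ∀ n : ℕ, 1 ≤ n → ∀ p q : ℝ, p < q → (n : ℝ) - 2 ≤ q → q < (n : ℝ) →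
      ∀ cap : ℝ → Set (EuclideanSpace ℝ (Fin n)) → ℝ,
        (∀ (s : ℝ) (K : Set (EuclideanSpace ℝ (Fin n))),
          cap s K =
            if 0 < s then
              ((⨅ (μ : MeasureTheory.Measure (EuclideanSpace ℝ (Fin n)))
                  (_ : μ Set.univ = 1 ∧ μ Kᶜ = 0),
                  ∫⁻ x, ∫⁻ y, (edist x y) ^ (-s) ∂μ ∂μ) ^ (-1 / s)).toReal
            else if s = 0 then
              (if (⨅ (μ : MeasureTheory.Measure (EuclideanSpace ℝ (Fin n)))
                    (_ : μ Set.univ = 1 ∧ μ Kᶜ = 0),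
                    ∫⁻ x, ∫⁻ y, (if x = y then (⊤ : ENNReal) else
                      ENNReal.ofReal (Real.log ((Metric.diam K + 1) / dist x y))) ∂μ ∂μ) = ⊤
                then 0
                else (Metric.diam K + 1) * Real.exp (-((⨅ (μ : MeasureTheory.Measure
                    (EuclideanSpace ℝ (Fin n))) (_ : μ Set.univ = 1 ∧ μ Kᶜ = 0),
                    ∫⁻ x, ∫⁻ y, (if x = y then (⊤ : ENNReal) else
                      ENNReal.ofReal (Real.log ((Metric.diam K + 1) / dist x y))) ∂μ ∂μ).toReal)))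
            else
              ((⨆ (μ : MeasureTheory.Measure (EuclideanSpace ℝ (Fin n)))
                  (_ : μ Set.univ = 1 ∧ μ Kᶜ = 0),
                  ∫⁻ x, ∫⁻ y, (edist x y) ^ (-s) ∂μ ∂μ) ^ (-1 / s)).toReal) →
        ∀ K : Set (EuclideanSpace ℝ (Fin n)), IsCompact K → 0 < cap p K →
          cap q K / cap p K ≤
              cap q (Metric.closedBall (0 : EuclideanSpace ℝ (Fin n)) 1) /
                cap p (Metric.closedBall (0 : EuclideanSpace ℝ (Fin n)) 1) ∧
          (MeasureTheory.volume K).toReal ^ (1 / (n : ℝ)) / cap p K ≤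
              (MeasureTheory.volume (Metric.closedBall
                (0 : EuclideanSpace ℝ (Fin n)) 1)).toReal ^ (1 / (n : ℝ)) /
                cap p (Metric.closedBall (0 : EuclideanSpace ℝ (Fin n)) 1) := by
  intro n hn p q hpq hq hqn cap hcap K hK hpos
  have hc : ∀ s K, cap s K = ND.capf s K := by
    intro s K
    rw [hcap]
    rfl
  simp only [hc] at hpos ⊢
  rcases Nat.lt_or_ge n 2 with h1 | h2
  · have hn1 : n = 1 := by omega
    subst hn1
    have e1 : (((1 : ℕ) : ℝ)) = 1 := Nat.cast_one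
    rw [e1] at hqn ⊢
    rw [one_div_one, Real.rpow_one, Real.rpow_one]
    exact Fin.one_all hpq hqn hK hpos
  · have hB := Fin.ball_pos h2 (hpq.trans hqn)
    refine ⟨?_, ?_⟩
    · rw [div_le_div_iff₀ hpos hB]
      have h := Fin.ratio_all h2 hpq hq hqn hK
      rw [mul_comm (ND.capf q _) (ND.capf p K)]
      exact h
    · rw [div_le_div_iff₀ hpos hB]
      have h := Fin.vol_all h2 (hpq.trans hqn) hK
      rw [mul_comm (_ ^ _) (ND.capf p K)]
      exact h

end Pool.Agent.Results.MP_6cd19d_an.HighExponents
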